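import Mathlib
import Pool.Agent.Helper130_piso.GoodC
import Pool.Agent.Helper130_piso.GoodA

/-!
# A finite non-abelian group with as many endomorphisms as isomorphisms between its subgroups

The group is a direct product of `p`-groups of class two for 14 different primes `p`.  For `p = 5`
we take `C_25 ∘ 5^{1+2} × C_5^4` (order `5^8`); for `p = 7, 23` we take `M_{p³} × C_p`, and for
`p = 37, 71, 709, 1051, 5281, 6619, 7459, 170383, 597391, 946459, 1022611` we take `M_{p³}`, the
non-abelian group of order `p³` and exponent `p²`.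
-/

namespace Pool.Agent.Results.MP_882835_al.NonabelianEqual

open H130

theorem good_total : ∃ n e : ℕ, Good n e e := by
  have f1 : Fact (Nat.Prime 7) := ⟨by norm_num⟩
  have f2 : Fact (Nat.Prime 23) := ⟨by norm_num⟩
  have f3 : Fact (Nat.Prime 37) := ⟨by norm_num⟩
  have f4 : Fact (Nat.Prime 71) := ⟨by norm_num⟩
  have f5 : Fact (Nat.Prime 709) := ⟨by norm_num⟩
  have f6 : Fact (Nat.Prime 1051) := ⟨by norm_num⟩
  have f7 : Fact (Nat.Prime 5281) := ⟨by norm_num⟩
  have f8 : Fact (Nat.Prime 6619) := ⟨by norm_num⟩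
  have f9 : Fact (Nat.Prime 7459) := ⟨by norm_num⟩
  have f10 : Fact (Nat.Prime 170383) := ⟨by norm_num⟩
  have f11 : Fact (Nat.Prime 597391) := ⟨by norm_num⟩
  have f12 : Fact (Nat.Prime 946459) := ⟨by norm_num⟩
  have f13 : Fact (Nat.Prime 1022611) := ⟨by norm_num⟩
  have h := TC.goodC
  have h := h.mul (TA.goodA1 7 (by norm_num)) (by norm_num)
  have h := h.mul (TA.goodA1 23 (by norm_num)) (by norm_num)
  have h := h.mul (TA.goodA0 37 (by norm_num)) (by norm_num)
  have h := h.mul (TA.goodA0 71 (by norm_num)) (by norm_num)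
  have h := h.mul (TA.goodA0 709 (by norm_num)) (by norm_num)
  have h := h.mul (TA.goodA0 1051 (by norm_num)) (by norm_num)
  have h := h.mul (TA.goodA0 5281 (by norm_num)) (by norm_num)
  have h := h.mul (TA.goodA0 6619 (by norm_num)) (by norm_num)
  have h := h.mul (TA.goodA0 7459 (by norm_num)) (by norm_num)
  have h := h.mul (TA.goodA0 170383 (by norm_num)) (by norm_num)
  have h := h.mul (TA.goodA0 597391 (by norm_num)) (by norm_num)
  have h := h.mul (TA.goodA0 946459 (by norm_num)) (by norm_num)
  have h := h.mul (TA.goodA0 1022611 (by norm_num)) (by norm_num)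
  have key : ∀ n e q : ℕ, Good n e q → e = q → ∃ n e : ℕ, Good n e e := by
    rintro n e q hg rfl
    exact ⟨n, e, hg⟩
  exact key _ _ _ h (by norm_num)

/-- There is a finite non-abelian group `G` with `|End(G)| = |PIso(G)|`. -/
theorem result : ∃ (G : Type) (_ : Group G) (_ : Finite G), (∃ a b : G, a * b ≠ b * a) ∧
    Nat.card (G →* G) = Nat.card (Σ (H : Subgroup G) (K : Subgroup G), (H ≃* K)) := by
  obtain ⟨n, e, G, i1, i2, hab, h1, h2, h3⟩ := good_total
  refine ⟨G, i1, i2, hab, ?_⟩
  rw [card_piso G G, h2, h3]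

end Pool.Agent.Results.MP_882835_al.NonabelianEqual
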